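import Pool.Agent.Lib.MP_f91407_an.Bin.Final

/-!
# Entrywise maps and the polynomials `c (1 + r z)(1 + μ z)^m`

For a map `F` on the nonnegative reals with `F 0 = 0` the following are equivalent: `F` sends every
polynomial `c (1 + r z)(1 + μ z)^m` (with `c > 0`, `r, μ ≥ 0`) to a real-rooted polynomial; `F`
sends every member of the class generated by these polynomials under Hadamard products and
Hadamard powers with real exponent at least `2` to a real-rooted polynomial; `F x = c * x ^ p` with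
`c > 0` and `p = 1` or `p` real, `p ≥ 2`.
-/

namespace Pool.Agent.Results.MP_f91407_an.BinomialPowers

open Pool.Agent.Lib.MP_f91407_an NNReal

theorem result (F : ℝ≥0 → ℝ≥0) (hF : F 0 = 0) : List.TFAE
    [∀ (c r μ : ℝ≥0) (m : ℕ), 0 < c → InP (m + 1) fun j => F (linPow c r μ m j),
     ∀ a : ℕ → ℝ≥0, Cls a → ∀ d : ℕ, (∀ j, d < j → a j = 0) → InP d fun j => F (a j),
     ∃ c p : ℝ, 0 < c ∧ (p = 1 ∨ 2 ≤ p) ∧ ∀ x : ℝ≥0, ((F x : ℝ≥0) : ℝ) = c * (x : ℝ) ^ p] :=
  main_tfae F hF

end Pool.Agent.Results.MP_f91407_an.BinomialPowers
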