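import Pool.Agent.Lib.MP_f91407_an.LP.H7

/-!
# Entrywise maps preserving real-rooted polynomials with nonnegative coefficients

Every map with the property is `F x = c * x ^ p` with `c > 0` and `p = 1` or `p ≥ 2`; and every
such map with `p` a positive integer or a real number `p ≥ 64` has the property.
-/

namespace Pool.Agent.Results.MP_f91407_an.LargePowers

open Pool.Agent.Lib.MP_f91407_an NNReal

theorem result :
    (∀ F : ℝ≥0 → ℝ≥0, Preserves F →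
      ∃ c p : ℝ, 0 < c ∧ (p = 1 ∨ 2 ≤ p) ∧ ∀ x : ℝ≥0, ((F x : ℝ≥0) : ℝ) = c * (x : ℝ) ^ p) ∧
    ∀ c p : ℝ, 0 < c → ((∃ k : ℕ, 1 ≤ k ∧ p = k) ∨ 64 ≤ p) →
      ∀ F : ℝ≥0 → ℝ≥0, (∀ x : ℝ≥0, ((F x : ℝ≥0) : ℝ) = c * (x : ℝ) ^ p) → Preserves F :=
  Pool.Agent.LP.final

end Pool.Agent.Results.MP_f91407_an.LargePowers
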